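import Pool.Agent.H544G.Win
import Pool.Agent.H544G.Real

/-!
# Goldbach partitions with a prime in `(√(2n), n)`, for all even integers near the real numbers `c + α f(i)`

Here `f` is a polynomial with integer coefficients, `α ≠ 0` and `c` are arbitrary real numbers, and `i` runs through
almost all elements of an arbitrary dense set; for instance all even integers near `√2 i ^ 2` or `N - π p ^ 3`.

Proof. If `s i` are integers of nearly minimal additive energy, then so are the integer parts of `c + α s i`: a
solution of `∑ ⌊c + α s (a j)⌋ = ∑ ⌊c + α s (b j)⌋` satisfies `∑ s (a j) = ∑ s (b j) + t` with `|t| ≤ h / |α|`, and the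
number of solutions of this equation is largest for `t = 0` (`Pool.Agent.H544G.corr_le`, `En_near`, `real_energy`). The
energy of the polynomial values and the mean value theorem for families of small energy are from the starting files.

Definition used (in `Pool.Agent.H560R3.GB`): `sing m`: the singular series
`2 C₂ ∏_{p ∣ m, p > 2} (p - 1) / (p - 2)`, where `C₂ = ∏_{p > 2} (1 - 1 / (p - 1) ^ 2)`.
-/

set_option autoImplicit false

namespace Pool.Agent.Results.MP_33f996_nt.RealMultiplesOfPolynomials

open Finset Polynomial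
open Pool.Agent.H560R3.GB (sing)

/-- The number of the primes `p` with `y₁ < p ≤ y₂` for which `m - p` is also a prime. -/
def R (m y₁ y₂ : ℕ) : ℕ := ((Ioc y₁ y₂).filter (fun p => p.Prime ∧ (m - p).Prime)).card

/-- (1) There is a prime `p` with `√m < p < m / 2` such that `m - p` is a prime (the assertion of the problem for
`m = 2 n`); (2) every window `(y₁, y₂]` with `√m ≤ y₁ < y₂ < m / 2` of a length of at least `m / log ^ A m` contains
such a prime, and the number of these primes in the window is `sing m * (y₂ - y₁) / log ^ 2 m` up to a relative error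
of at most `ε`. -/
def Holds (ε : ℝ) (A m : ℕ) : Prop :=
  (∃ p : ℕ, p.Prime ∧ (m - p).Prime ∧ √(m : ℝ) < p ∧ 2 * p < m) ∧
  ∀ y₁ y₂ : ℕ, y₁ < y₂ → √(m : ℝ) ≤ y₁ → 2 * y₂ < m → (m : ℝ) / Real.log m ^ A ≤ (y₂ : ℝ) - y₁ →
    (∃ p : ℕ, y₁ < p ∧ p ≤ y₂ ∧ p.Prime ∧ (m - p).Prime) ∧
    |(R m y₁ y₂ : ℝ) - sing m * ((y₂ : ℝ) - y₁) / Real.log m ^ 2| ≤
      ε * (sing m * ((y₂ : ℝ) - y₁) / Real.log m ^ 2)

/-- `Holds` for all the even integers `m > 0` at a distance of at most `log ^ W N` from the real number `b`. -/
def Near (ε : ℝ) (A W N : ℕ) (b : ℝ) : Prop :=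
  ∀ m : ℕ, 0 < m → Even m → |(m : ℝ) - b| ≤ Real.log N ^ W → Holds ε A m

open Classical in
/-- Let `f` be a nonconstant polynomial with integer coefficients, let `A`, `B`, `C`, `W`, `U` and `ε > 0` be fixed, and
let `N` be large. Let `x ^ deg f` be between `N / log ^ C N` and `B N`, let `α` and `c` be arbitrary real numbers with
`1 / log ^ C N ≤ |α| ≤ B` and `|c| ≤ B N`, and let `M` be an arbitrary set of at least `x / log ^ C N` of the integers
`1, ..., x` (for instance the primes up to `x`). Then all the `i ∈ M`, with at most `#M / log ^ U N` exceptions, have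
the following property: ALL the even integers `m > 0` at a distance of at most `log ^ W N` from the real number
`c + α f(i)` have a Goldbach partition with a prime `p`, `√m < p < m / 2`, even with `p` in every window of a length of
at least `m / log ^ A m` between `√m` and `m / 2`, and the number of these partitions is as predicted, up to a relative
error of at most `ε`. The number `N₀` does not depend on `x`, `α`, `c` and `M`. -/
theorem result (f : ℤ[X]) (hd : 1 ≤ f.natDegree) (A B C W U : ℕ) (ε : ℝ) (hε : 0 < ε) :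
    ∃ N₀ : ℕ, ∀ N : ℕ, N₀ ≤ N → ∀ x : ℕ, x ^ f.natDegree ≤ B * N →
      (N : ℝ) ≤ Real.log N ^ C * (x : ℝ) ^ f.natDegree →
      ∀ α c : ℝ, 1 ≤ |α| * Real.log N ^ C → |α| ≤ B → |c| ≤ B * N →
      ∀ M : Finset ℕ, M ⊆ Icc 1 x → (x : ℝ) ≤ Real.log N ^ C * M.card →
      ((M.filter (fun i : ℕ => ¬ Near ε A W N (c + α * ((f.eval (i : ℤ) : ℤ) : ℝ)))).card : ℝ) ≤
        M.card / Real.log N ^ U := by
  obtain ⟨m₀, hm₀⟩ := Pool.Agent.H544G.win_props A ε hε
  obtain ⟨N₀, h0⟩ := Pool.Agent.H544G.dense_real f hd (A + 1) B C W U m₀ (min ε (1 / 2))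
    (lt_min hε (by norm_num)) (Holds ε A) hm₀
  refine ⟨N₀, fun N hN x hx1 hx2 α c hα1 hα2 hc M hM hMc => ?_⟩
  apply h0 N hN x hx1 hx2 α c hα1 hα2 hc M hM hMc
  · exact filter_subset _ _
  · intro i hi
    have h1 := (mem_filter.1 hi).2
    unfold Near at h1
    push Not at h1
    obtain ⟨m, h2, h3, h4, h5⟩ := h1
    exact ⟨m, h2, h3, h4, h5⟩

end Pool.Agent.Results.MP_33f996_nt.RealMultiplesOfPolynomials
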